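import Pool.Agent.Lib.helper1.SidMain

set_option autoImplicit false

namespace Pool.Agent.Results.MP_30cdc8_co.LinearBound

open Pool.Agent.Lib.Helper1.Sid

/-- For every `r ≥ 2` there is `f : ℕ → ℕ` such that every `r`-partite `r`-graph `F` of maximum
degree at most `Δ` has Sidorenko exponent at most `f Δ * e(F)`. -/
theorem result :
    ∀ r : ℕ, 2 ≤ r → ∃ f : ℕ → ℕ, ∀ (Δ a : ℕ) (F : Finset (Finset (Fin a))),
      (∀ e ∈ F, e.card = r) →
      (∃ c : Fin a → Fin r, ∀ e ∈ F, ∀ i : Fin r, (e.filter (fun v => c v = i)).card = 1) →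
      (∀ v : Fin a, (F.filter (fun e => v ∈ e)).card ≤ Δ) →
      sidorenkoExponent r F ≤ ((f Δ * F.card : ℕ) : ℝ) := by
  intro r hr
  refine ⟨fun Δ => 1 + r * (r * Δ + 1) ^ r, ?_⟩
  rintro Δ a F - ⟨c, hc⟩ hΔ
  exact exponent_le r hr Δ F c hc hΔ

end Pool.Agent.Results.MP_30cdc8_co.LinearBound
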